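import Mathlib

/-! The relations of a finitely presented abelian-by-Heisenberg Lie algebra and their
consequences. -/

set_option autoImplicit false

namespace Pool.Agent.Y332.LH

universe u

variable {k : Type u} [Field k] {P : Type*} [LieRing P] [LieAlgebra k P]

/-- the relations -/
structure Rel {P : Type*} [LieRing P] (D X v : P) : Prop where
  r1 : ⁅⁅D, X⁆, X⁆ = 0
  r2 : ⁅⁅D, X⁆, D⁆ = 0
  r3 : ⁅⁅D, X⁆, v⁆ - v = 0
  r4 : ⁅D, v⁆ - ⁅X, ⁅X, v⁆⁆ = 0
  r5 : ⁅v, ⁅X, v⁆⁆ = 0

/-- the basis of the module -/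
def vv (X v : P) : ℕ → P
  | 0 => v
  | i + 1 => ⁅X, vv X v i⁆

variable {D X v : P}

theorem Rel.Zv (h : Rel D X v) (i : ℕ) : ⁅⁅D, X⁆, vv X v i⁆ = vv X v i := by
  induction i with
  | zero => exact sub_eq_zero.1 h.r3
  | succ i ih =>
    rw [vv, leibniz_lie, h.r1, zero_lie, zero_add, ih]

theorem Rel.Dv0 (h : Rel D X v) : ⁅D, vv X v 0⁆ = vv X v 2 := sub_eq_zero.1 h.r4

theorem Rel.Dv (h : Rel D X v) (i : ℕ) :
    ⁅D, vv X v (i + 1)⁆ = vv X v (i + 3) + ((i : k) + 1) • vv X v i := by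
  induction i with
  | zero =>
    change ⁅D, ⁅X, vv X v 0⁆⁆ = ⁅X, vv X v 2⁆ + (((0 : ℕ) : k) + 1) • vv X v 0
    rw [leibniz_lie, h.Dv0, h.Zv]
    rw [Nat.cast_zero, zero_add, one_smul, add_comm]
  | succ i ih =>
    rw [vv, leibniz_lie, ih, h.Zv, lie_add, lie_smul]
    have e1 : ⁅X, vv X v i⁆ = vv X v (i + 1) := rfl
    have e2 : ⁅X, vv X v (i + 3)⁆ = vv X v (i + 1 + 3) := rfl
    rw [e1, e2]
    push_cast
    module

include k in
/-- The module is an abelian subalgebra. -/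
theorem Rel.vv0 (h2 : (2 : k) ≠ 0) (h : Rel D X v) :
    ∀ i j : ℕ, ⁅vv X v i, vv X v j⁆ = 0 := by
  have key : ∀ n, (∀ m, m ≤ n → ∀ i j, i + j = m → ⁅vv X v i, vv X v j⁆ = 0) := by
    intro n
    induction n with
    | zero =>
      intro m hm i j hij
      have hi : i = 0 := by omega
      have hj : j = 0 := by omega
      subst hi hj
      exact lie_self _
    | succ n ih =>
      intro m hm i j hij
      rcases Nat.lt_or_ge m (n + 1) with hlt | hge
      · exact ih m (by omega) i j hij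
      have hm' : m = n + 1 := by omega
      subst hm'
      have hX : ∀ a b, a + b = n → ⁅vv X v (a + 1), vv X v b⁆ =
          - ⁅vv X v a, vv X v (b + 1)⁆ := by
        intro a b hab
        have h1 := leibniz_lie X (vv X v a) (vv X v b)
        rw [ih n le_rfl a b hab, lie_zero] at h1
        exact eq_neg_of_add_eq_zero_left h1.symm
      have hA : ∀ a b, a + b = n + 1 → ⁅vv X v a, vv X v b⁆ =
          ((-1 : k) ^ a) • ⁅vv X v 0, vv X v (n + 1)⁆ := by
        intro a
        induction a with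
        | zero =>
          intro b hb
          have : b = n + 1 := by omega
          subst this
          simp
        | succ a iha =>
          intro b hb
          rw [hX a b (by omega), iha (b + 1) (by omega), pow_succ, mul_neg_one, neg_smul]
      have h0 : ⁅vv X v 0, vv X v (n + 1)⁆ = 0 := by
        rcases n with _ | n
        · exact h.r5
        · -- apply `D` to `[v_0, v_n] = 0`
          have h3 := leibniz_lie D (vv X v 0) (vv X v n)
          rw [ih n (by omega) 0 n (by omega), lie_zero, h.Dv0] at h3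
          have h4 : ⁅vv X v 0, ⁅D, vv X v n⁆⁆ = ⁅vv X v 0, vv X v (n + 1 + 1)⁆ := by
            rcases n with _ | n
            · rw [h.Dv0]
            · rw [h.Dv (k := k), lie_add, lie_smul, ih n (by omega) 0 n (by omega), smul_zero,
                add_zero]
          rw [h4, hA 2 n (by omega)] at h3
          have h5 : (2 : k) • ⁅vv X v 0, vv X v (n + 1 + 1)⁆ = 0 := by
            rw [two_smul]
            simpa using h3.symm
          exact (smul_eq_zero.1 h5).resolve_left h2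
      rw [hA i j hij, h0, smul_zero]
  intro i j
  exact key (i + j) (i + j) le_rfl i j rfl

/-! ### The structure of the algebra -/

/-- the module part -/
def MM (k : Type u) [Field k] {P : Type*} [LieRing P] [LieAlgebra k P] (X v : P) :
    Submodule k P := Submodule.span k (Set.range (vv X v))

theorem vv_mem (i : ℕ) : vv X v i ∈ MM k X v := Submodule.subset_span ⟨i, rfl⟩

theorem closed_of {y : P} (h : ∀ i, ⁅y, vv X v i⁆ ∈ MM k X v) {m : P}
    (hm : m ∈ MM k X v) : ⁅y, m⁆ ∈ MM k X v := by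
  induction hm using Submodule.span_induction with
  | mem x hx =>
    obtain ⟨i, rfl⟩ := hx
    exact h i
  | zero => rw [lie_zero]; exact zero_mem _
  | add a b _ _ ha hb => rw [lie_add]; exact add_mem ha hb
  | smul t a _ ha => rw [lie_smul]; exact Submodule.smul_mem _ _ ha

theorem Rel.D_mem (h : Rel D X v) {m : P} (hm : m ∈ MM k X v) : ⁅D, m⁆ ∈ MM k X v := by
  refine closed_of (fun i => ?_) hm
  rcases i with _ | i
  · rw [h.Dv0]
    exact vv_mem 2
  · rw [h.Dv (k := k)]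
    exact add_mem (vv_mem _) (Submodule.smul_mem _ _ (vv_mem i))

theorem X_mem {m : P} (hm : m ∈ MM k X v) : ⁅X, m⁆ ∈ MM k X v :=
  closed_of (fun i => vv_mem (i + 1)) hm

theorem Rel.Z_mem (h : Rel D X v) {m : P} (hm : m ∈ MM k X v) :
    ⁅⁅D, X⁆, m⁆ ∈ MM k X v :=
  closed_of (fun i => by rw [h.Zv]; exact vv_mem i) hm

theorem Rel.MM_lie (h2 : (2 : k) ≠ 0) (h : Rel D X v) {m m' : P} (hm : m ∈ MM k X v)
    (hm' : m' ∈ MM k X v) : ⁅m, m'⁆ = 0 := by
  induction hm using Submodule.span_induction with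
  | mem x hx =>
    obtain ⟨i, rfl⟩ := hx
    induction hm' using Submodule.span_induction with
    | mem x hx =>
      obtain ⟨j, rfl⟩ := hx
      exact h.vv0 h2 i j
    | zero => rw [lie_zero]
    | add a b _ _ ha hb => rw [lie_add, ha, hb, add_zero]
    | smul t a _ ha => rw [lie_smul, ha, smul_zero]
  | zero => rw [zero_lie]
  | add a b _ _ ha hb => rw [add_lie, ha, hb, add_zero]
  | smul t a _ ha => rw [smul_lie, ha, smul_zero]

/-- the form of the elements -/
def Form (k : Type u) [Field k] {P : Type*} [LieRing P] [LieAlgebra k P] (D X v : P)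
    (a b c : k) (y : P) : Prop :=
  ∃ m ∈ MM k X v, y = a • D + b • X + c • ⁅D, X⁆ + m

theorem Rel.E_mem (h : Rel D X v) (a b c : k) {m : P} (hm : m ∈ MM k X v) :
    ⁅a • D + b • X + c • ⁅D, X⁆, m⁆ ∈ MM k X v := by
  simp only [add_lie, smul_lie]
  refine add_mem (add_mem ?_ ?_) ?_
  · exact Submodule.smul_mem _ _ (h.D_mem hm)
  · exact Submodule.smul_mem _ _ (X_mem hm)
  · exact Submodule.smul_mem _ _ (h.Z_mem hm)

theorem table {Z : P} (hDX : ⁅D, X⁆ = Z) (hZD : ⁅Z, D⁆ = 0) (hZX : ⁅Z, X⁆ = 0)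
    (a b c a' b' c' : k) :
    ⁅a • D + b • X + c • Z, a' • D + b' • X + c' • Z⁆ = (a * b' - b * a') • Z := by
  have h1 : ⁅X, D⁆ = - Z := by rw [← hDX, lie_skew]
  have h3 : ⁅D, Z⁆ = 0 := by rw [← lie_skew, hZD, neg_zero]
  have h6 : ⁅X, Z⁆ = 0 := by rw [← lie_skew, hZX, neg_zero]
  simp only [add_lie, lie_add, smul_lie, lie_smul, lie_self, hDX, hZD, hZX, h1,
    h3, h6, smul_zero, add_zero, zero_add]
  module

theorem Rel.form_lie (h2 : (2 : k) ≠ 0) (h : Rel D X v) {a b c a' b' c' : k} {y y' : P}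
    (hy : Form k D X v a b c y) (hy' : Form k D X v a' b' c' y') :
    Form k D X v 0 0 (a * b' - b * a') ⁅y, y'⁆ := by
  obtain ⟨m, hm, rfl⟩ := hy
  obtain ⟨m', hm', rfl⟩ := hy'
  refine ⟨⁅a • D + b • X + c • ⁅D, X⁆, m'⁆ - ⁅a' • D + b' • X + c' • ⁅D, X⁆, m⁆,
    sub_mem (h.E_mem a b c hm') (h.E_mem a' b' c' hm), ?_⟩
  have h1 := table (k := k) (D := D) (X := X) rfl h.r2 h.r1 a b c a' b' c'
  have h3 : ∀ e e' n n' : P, ⁅e + n, e' + n'⁆ = ⁅e, e'⁆ + (⁅e, n'⁆ - ⁅e', n⁆) + ⁅n, n'⁆ := by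
    intro e e' n n'
    rw [add_lie, lie_add, lie_add, ← lie_skew n e']
    abel
  rw [h3, h1, h.MM_lie h2 hm hm', add_zero, zero_smul, zero_smul, zero_add, zero_add]

/-- the Lie subalgebra of all elements of the form -/
def Rel.sub (h2 : (2 : k) ≠ 0) (h : Rel D X v) : LieSubalgebra k P where
  carrier := {y | ∃ a b c : k, Form k D X v a b c y}
  add_mem' := by
    rintro y y' ⟨a, b, c, m, hm, rfl⟩ ⟨a', b', c', m', hm', rfl⟩
    refine ⟨a + a', b + b', c + c', m + m', add_mem hm hm', ?_⟩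
    module
  zero_mem' := ⟨0, 0, 0, 0, zero_mem _, by simp⟩
  smul_mem' := by
    rintro t y ⟨a, b, c, m, hm, rfl⟩
    refine ⟨t * a, t * b, t * c, t • m, Submodule.smul_mem _ _ hm, ?_⟩
    module
  lie_mem' := by
    rintro y y' ⟨a, b, c, hy⟩ ⟨a', b', c', hy'⟩
    exact ⟨_, _, _, h.form_lie h2 hy hy'⟩

end Pool.Agent.Y332.LH
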