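import Mathlib
import Pool.Agent.Helper844.LieFP.Defs
import Pool.Agent.Y332.LH.Core

/-! A finitely presented abelian-by-Heisenberg Lie algebra that is not residually
finite-dimensional. -/

set_option autoImplicit false

namespace Pool.Agent.Y332.LH

open Pool.Agent.Helper844.LieFP (InVariety values FinitelyPresented FinitelyPresentedIn
  ResiduallyFiniteDimensional)

universe u

variable {k : Type u} [Field k]

/-- the free Lie algebra on three generators -/
abbrev Fr (k : Type u) [Field k] : Type u := FreeLieAlgebra k (Fin 3)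

/-- the relators -/
def rels {P : Type*} [LieRing P] (D X v : P) : Set P :=
  {⁅⁅D, X⁆, X⁆, ⁅⁅D, X⁆, D⁆, ⁅⁅D, X⁆, v⁆ - v, ⁅D, v⁆ - ⁅X, ⁅X, v⁆⁆, ⁅v, ⁅X, v⁆⁆}

theorem rel_iff {P : Type*} [LieRing P] (D X v : P) :
    Rel D X v ↔ ∀ r ∈ rels D X v, r = 0 := by
  simp only [rels, Set.mem_insert_iff, Set.mem_singleton_iff, forall_eq_or_imp, forall_eq]
  constructor
  · intro h
    exact ⟨h.r1, h.r2, h.r3, h.r4, h.r5⟩
  · rintro ⟨h1, h2, h3, h4, h5⟩
    exact ⟨h1, h2, h3, h4, h5⟩

theorem rels_map {P P' : Type*} [LieRing P] [LieAlgebra k P] [LieRing P'] [LieAlgebra k P']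
    (φ : P →ₗ⁅k⁆ P') (D X v : P) : rels (φ D) (φ X) (φ v) = φ '' rels D X v := by
  simp only [rels, Set.image_insert_eq, Set.image_singleton, LieHom.map_lie, map_sub]

/-- relators in the free Lie algebra -/
def R0 (k : Type u) [Field k] : Set (Fr k) :=
  rels (FreeLieAlgebra.of k 0) (FreeLieAlgebra.of k 1) (FreeLieAlgebra.of k 2)

/-- the ideal -/
noncomputable def J0 (k : Type u) [Field k] : LieIdeal k (Fr k) :=
  LieSubmodule.lieSpan k (Fr k) (R0 k)

/-- the Lie algebra -/
abbrev PP (k : Type u) [Field k] : Type u := Fr k ⧸ J0 k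

/-- the projection -/
noncomputable def pr (k : Type u) [Field k] : Fr k →ₗ⁅k⁆ PP k :=
  { (LieSubmodule.Quotient.mk' (J0 k) : Fr k →ₗ[k] PP k) with
    map_lie' := fun {x y} => LieSubmodule.Quotient.mk_bracket _ x y }

theorem pr_eq_zero (x : Fr k) : pr k x = 0 ↔ x ∈ J0 k :=
  LieSubmodule.Quotient.mk_eq_zero _

theorem pr_surj : Function.Surjective (pr k) := LieSubmodule.Quotient.surjective_mk' _

/-- the images of the generators -/
noncomputable def gD (k : Type u) [Field k] : PP k := pr k (FreeLieAlgebra.of k 0)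
noncomputable def gX (k : Type u) [Field k] : PP k := pr k (FreeLieAlgebra.of k 1)
noncomputable def gv (k : Type u) [Field k] : PP k := pr k (FreeLieAlgebra.of k 2)

theorem pr_rel : Rel (gD k) (gX k) (gv k) := by
  rw [rel_iff]
  unfold gD gX gv
  rw [rels_map]
  rintro _ ⟨r, hr, rfl⟩
  rw [pr_eq_zero]
  exact LieSubmodule.subset_lieSpan hr

theorem mem_sub (h2 : (2 : k) ≠ 0) (y : PP k) : y ∈ (pr_rel (k := k)).sub h2 := by
  obtain ⟨u, rfl⟩ := pr_surj y
  have h0 : pr k (FreeLieAlgebra.of k 0) ∈ (pr_rel (k := k)).sub h2 :=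
    ⟨1, 0, 0, 0, zero_mem _, by simp [gD]⟩
  have h1 : pr k (FreeLieAlgebra.of k 1) ∈ (pr_rel (k := k)).sub h2 :=
    ⟨0, 1, 0, 0, zero_mem _, by simp [gX]⟩
  have h3 : pr k (FreeLieAlgebra.of k 2) ∈ (pr_rel (k := k)).sub h2 :=
    ⟨0, 0, 0, _, vv_mem 0, by simp [vv, gv]⟩
  have h4 : ∀ i : Fin 3, pr k (FreeLieAlgebra.of k i) ∈ (pr_rel (k := k)).sub h2 := by
    intro i
    fin_cases i
    · exact h0
    · exact h1
    · exact h3
  let g : Fr k →ₗ⁅k⁆ (pr_rel (k := k)).sub h2 :=
    FreeLieAlgebra.lift k (fun i => ⟨pr k (FreeLieAlgebra.of k i), h4 i⟩)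
  have h5 : ((pr_rel (k := k)).sub h2).incl.comp g = pr k := by
    apply FreeLieAlgebra.hom_ext
    intro i
    simp [g]
  have h6 : ((g u : (pr_rel (k := k)).sub h2) : PP k) = pr k u := DFunLike.congr_fun h5 u
  rw [← h6]
  exact (g u).2

/-- the abelian ideal -/
noncomputable def AA (h2 : (2 : k) ≠ 0) : LieIdeal k (PP k) :=
  { MM k (gX k) (gv k) with
    lie_mem := by
      intro y m hm
      obtain ⟨a, b, c, m', hm', hy⟩ := mem_sub h2 y
      rw [hy, add_lie, (pr_rel (k := k)).MM_lie h2 hm' hm, add_zero]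
      exact (pr_rel (k := k)).E_mem a b c hm }

theorem mem_AA (h2 : (2 : k) ≠ 0) (m : PP k) : m ∈ AA h2 ↔ m ∈ MM k (gX k) (gv k) := Iff.rfl

/-- the identity of the variety of abelian-by-(nilpotent of class 2) Lie algebras -/
theorem pp_identity (h2 : (2 : k) ≠ 0) (x₁ x₂ x₃ y₁ y₂ y₃ : PP k) :
    ⁅⁅⁅x₁, x₂⁆, x₃⁆, ⁅⁅y₁, y₂⁆, y₃⁆⁆ = 0 := by
  have key : ∀ x₁ x₂ x₃ : PP k, ⁅⁅x₁, x₂⁆, x₃⁆ ∈ MM k (gX k) (gv k) := by
    intro x₁ x₂ x₃
    obtain ⟨a, b, c, h1⟩ := mem_sub h2 x₁
    obtain ⟨a', b', c', h2'⟩ := mem_sub h2 x₂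
    obtain ⟨a₃, b₃, c₃, h3⟩ := mem_sub h2 x₃
    have h12 := (pr_rel (k := k)).form_lie h2 h1 h2'
    obtain ⟨m, hm, he⟩ := (pr_rel (k := k)).form_lie h2 h12 h3
    rw [he]
    simp only [zero_mul, sub_self, zero_smul, zero_add]
    exact hm
  exact (pr_rel (k := k)).MM_lie h2 (key _ _ _) (key _ _ _)

/-! The model. -/

attribute [local instance] LieRing.ofAssociativeRing LieAlgebra.ofAssociativeAlgebra

/-- the space of the model -/
abbrev Md (k : Type u) [Field k] : Type u := Polynomial k × k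

noncomputable def mD (k : Type u) [Field k] : Module.End k (Md k) :=
  LinearMap.prod ((Polynomial.derivative + LinearMap.mulLeft k (Polynomial.X ^ 2)) ∘ₗ
    LinearMap.fst k _ _) 0

noncomputable def mX (k : Type u) [Field k] : Module.End k (Md k) :=
  LinearMap.prod (LinearMap.mulLeft k Polynomial.X ∘ₗ LinearMap.fst k _ _) 0

noncomputable def mv (k : Type u) [Field k] : Module.End k (Md k) :=
  LinearMap.prod (Algebra.linearMap k (Polynomial k) ∘ₗ LinearMap.snd k _ _) 0

theorem mD_apply (w : Md k) :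
    mD k w = (Polynomial.derivative w.1 + Polynomial.X ^ 2 * w.1, 0) := rfl
theorem mX_apply (w : Md k) : mX k w = (Polynomial.X * w.1, 0) := rfl
theorem mv_apply (w : Md k) : mv k w = (Polynomial.C w.2, 0) := rfl

theorem mZ_apply (w : Md k) : (⁅mD k, mX k⁆ : Module.End k (Md k)) w = (w.1, 0) := by
  rw [Ring.lie_def, LinearMap.sub_apply, Module.End.mul_apply, Module.End.mul_apply]
  simp only [mD_apply, mX_apply]
  apply Prod.ext
  · simp only [Prod.fst_sub, Polynomial.derivative_mul, Polynomial.derivative_X]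
    ring
  · simp

theorem model_rel : Rel (mD k) (mX k) (mv k) where
  r1 := by
    refine LinearMap.ext fun w => ?_
    rw [Ring.lie_def (⁅mD k, mX k⁆), LinearMap.sub_apply, Module.End.mul_apply,
      Module.End.mul_apply, LinearMap.zero_apply]
    simp only [mZ_apply, mX_apply, sub_self]
  r2 := by
    refine LinearMap.ext fun w => ?_
    rw [Ring.lie_def (⁅mD k, mX k⁆), LinearMap.sub_apply, Module.End.mul_apply,
      Module.End.mul_apply, LinearMap.zero_apply]
    simp only [mZ_apply, mD_apply, sub_self]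
  r3 := by
    refine LinearMap.ext fun w => ?_
    rw [Ring.lie_def (⁅mD k, mX k⁆), LinearMap.sub_apply, LinearMap.sub_apply,
      Module.End.mul_apply, Module.End.mul_apply, LinearMap.zero_apply]
    simp only [mZ_apply, mv_apply]
    apply Prod.ext
    · simp
    · simp
  r4 := by
    refine LinearMap.ext fun w => ?_
    rw [LinearMap.sub_apply, Ring.lie_def (mD k), Ring.lie_def (mX k) (⁅mX k, mv k⁆),
      Ring.lie_def (mX k) (mv k)]
    simp only [LinearMap.sub_apply, Module.End.mul_apply, mX_apply, mD_apply, mv_apply,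
      LinearMap.zero_apply, map_sub]
    apply Prod.ext
    · simp only [Prod.fst_sub, Polynomial.C_0, sub_zero, mul_zero, Polynomial.derivative_C,
        zero_add, Prod.fst_zero]
      ring
    · simp
  r5 := by
    refine LinearMap.ext fun w => ?_
    rw [Ring.lie_def (mv k), Ring.lie_def (mX k) (mv k)]
    simp only [LinearMap.sub_apply, Module.End.mul_apply, mX_apply, mv_apply,
      LinearMap.zero_apply, map_sub]
    apply Prod.ext
    · simp
    · simp

/-- the generator of the module is not zero -/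
theorem v_ne : gv k ≠ 0 := by
  intro h
  rw [gv, pr_eq_zero] at h
  let φ : Fr k →ₗ⁅k⁆ Module.End k (Md k) := FreeLieAlgebra.lift k ![mD k, mX k, mv k]
  have hφ0 : φ (FreeLieAlgebra.of k 0) = mD k := by simp [φ]
  have hφ1 : φ (FreeLieAlgebra.of k 1) = mX k := by simp [φ]
  have hφ2 : φ (FreeLieAlgebra.of k 2) = mv k := by simp [φ]
  have hle : J0 k ≤ φ.ker := by
    rw [J0, LieSubmodule.lieSpan_le]
    intro r hr
    have h1 : φ r ∈ rels (mD k) (mX k) (mv k) := by
      rw [← hφ0, ← hφ1, ← hφ2, rels_map]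
      exact ⟨r, hr, rfl⟩
    have h2 := (rel_iff (mD k) (mX k) (mv k)).1 model_rel _ h1
    exact (LieHom.mem_ker).2 h2
  have h3 := (LieHom.mem_ker).1 (hle h)
  rw [hφ2] at h3
  have h4 := LinearMap.congr_fun h3 (0, 1)
  rw [mv_apply] at h4
  have h5 := congrArg Prod.fst h4
  simp at h5

/-- In a finite-dimensional Lie algebra the relations imply that `v` is zero. -/
theorem Rel.v_eq_zero [CharZero k] {B : Type u} [LieRing B] [LieAlgebra k B]
    [Module.Finite k B] {D X v : B} (h : Rel D X v) : v = 0 := by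
  by_contra hv
  -- the operator `D - X²`
  let E : Module.End k B :=
    LieAlgebra.ad k B D - LieAlgebra.ad k B X * LieAlgebra.ad k B X
  have hE0 : E (vv X v 0) = 0 := by
    simp only [E, LinearMap.sub_apply, Module.End.mul_apply, LieAlgebra.ad_apply]
    rw [h.Dv0]
    exact sub_self _
  have hE : ∀ i : ℕ, E (vv X v (i + 1)) = ((i : k) + 1) • vv X v i := by
    intro i
    simp only [E, LinearMap.sub_apply, Module.End.mul_apply, LieAlgebra.ad_apply]
    rw [h.Dv (k := k)]
    have : ⁅X, ⁅X, vv X v (i + 1)⁆⁆ = vv X v (i + 3) := rfl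
    rw [this, add_sub_cancel_left]
  have hne : ∀ i, vv X v i ≠ 0 := by
    intro i
    induction i with
    | zero => exact hv
    | succ i ih =>
      intro h0
      have h1 := hE i
      rw [h0, map_zero] at h1
      have h2 := (smul_eq_zero.1 h1.symm).resolve_right ih
      have h3 : ((i : k) + 1) ≠ 0 := by exact_mod_cast Nat.succ_ne_zero i
      exact h3 h2
  let T : Module.End k B := LieAlgebra.ad k B X * E
  have hT : ∀ i : ℕ, T (vv X v i) = (i : k) • vv X v i := by
    intro i
    rcases i with _ | i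
    · simp only [T, Module.End.mul_apply, hE0, map_zero, Nat.cast_zero, zero_smul]
    · simp only [T, Module.End.mul_apply, hE, map_smul, LieAlgebra.ad_apply]
      push_cast
      rfl
  have hli : LinearIndependent k (fun i : ℕ => vv X v i) :=
    Module.End.eigenvectors_linearIndependent' T (fun i : ℕ => (i : k)) Nat.cast_injective _
      (fun i => ⟨Module.End.mem_eigenspace_iff.2 (hT i), hne i⟩)
  have := hli.finite_of_isNoetherian
  exact not_finite ℕ

theorem ker_pr : (pr k).ker = J0 k := by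
  ext x
  rw [LieHom.mem_ker, pr_eq_zero]

theorem R0_finite : (R0 k).Finite := by
  unfold R0 rels
  exact Set.toFinite _

theorem fp : FinitelyPresented k (PP k) := ⟨3, R0 k, pr k, R0_finite, pr_surj, ker_pr⟩

theorem fpIn (I : Set (FreeLieAlgebra k ℕ)) (hin : InVariety I (PP k)) :
    FinitelyPresentedIn I (PP k) := by
  refine ⟨3, R0 k, pr k, R0_finite, pr_surj, ?_⟩
  apply le_antisymm
  · rw [ker_pr, J0]
    exact LieSubmodule.lieSpan_mono Set.subset_union_right
  · rw [LieSubmodule.lieSpan_le]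
    rintro x (⟨f, hf, s, rfl⟩ | hx)
    · refine (LieHom.mem_ker).2 ?_
      have h1 : (pr k).comp (FreeLieAlgebra.lift k s) =
          FreeLieAlgebra.lift k (fun i => pr k (s i)) := by
        apply FreeLieAlgebra.hom_ext
        intro i
        simp
      have h2 := DFunLike.congr_fun h1 f
      rw [LieHom.comp_apply] at h2
      rw [h2]
      exact hin f hf _
    · rw [ker_pr]
      exact LieSubmodule.subset_lieSpan hx

theorem not_rfd [CharZero k] : ¬ ResiduallyFiniteDimensional k (PP k) := by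
  intro hrfd
  obtain ⟨B, _, _, _, φ, hφ⟩ := hrfd _ v_ne
  apply hφ
  have h1 : Rel (φ (gD k)) (φ (gX k)) (φ (gv k)) := by
    rw [rel_iff, rels_map]
    rintro _ ⟨r, hr, rfl⟩
    rw [(rel_iff _ _ _).1 pr_rel r hr, map_zero]
  exact h1.v_eq_zero (k := k)

/-- every homomorphism to a finite-dimensional algebra kills the abelian ideal -/
theorem kills [CharZero k] {B : Type u} [LieRing B] [LieAlgebra k B] [Module.Finite k B]
    (φ : PP k →ₗ⁅k⁆ B) {a : PP k} (ha : a ∈ MM k (gX k) (gv k)) : φ a = 0 := by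
  have hv : φ (gv k) = 0 := by
    have h1 : Rel (φ (gD k)) (φ (gX k)) (φ (gv k)) := by
      rw [rel_iff, rels_map]
      rintro _ ⟨r, hr, rfl⟩
      rw [(rel_iff _ _ _).1 pr_rel r hr, map_zero]
    exact h1.v_eq_zero (k := k)
  induction ha using Submodule.span_induction with
  | mem x hx =>
    obtain ⟨i, rfl⟩ := hx
    induction i with
    | zero => exact hv
    | succ i ih =>
      change φ ⁅gX k, vv (gX k) (gv k) i⁆ = 0
      rw [LieHom.map_lie, ih, lie_zero]
  | zero => exact map_zero φ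
  | add a b _ _ ha hb => rw [map_add, ha, hb, add_zero]
  | smul t a _ ha => rw [map_smul, ha, smul_zero]

end Pool.Agent.Y332.LH
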